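import Pool.Agent.Helper524.Mono.Suff
import Pool.Agent.Helper524.Mono.S_necessity
import Pool.Agent.Helper524.Mono.S_singleBasin_iff_path

set_option autoImplicit false

open MeasureTheory Set Metric
open scoped InnerProductSpace

namespace Pool.Agent.Results.MP_2b501e_co.Characterisation

open Pool.Agent.Helper524.Mono

/-- The body `K` can be rolled on a horizontal table from any position `u` to any other position
`v` without lifting its centre of mass by `ε` or more above the higher one of the two positions
(a position is given by the outer unit normal of the supporting plane lying on the table). -/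
def Rollable (K : Set E3) : Prop :=
  ∀ u v : E3, ‖u‖ = 1 → ‖v‖ = 1 → ∀ ε : ℝ, 0 < ε →
    ∃ γ : ℝ → E3, ContinuousOn γ (Icc 0 1) ∧ γ 0 = u ∧ γ 1 = v ∧
      ∀ t ∈ Icc (0 : ℝ) 1, ‖γ t‖ = 1 ∧ height K (γ t) < max (height K u) (height K v) + ε

/-- **Characterisation of the convex bodies approximable by monostable polyhedra.** -/
theorem result (K : Set E3) (hK : IsBody K) :
    (Approximable K ↔ SingleBasin K) ∧ (Approximable K ↔ Rollable K) := by
  have h1 : Approximable K ↔ SingleBasin K := ⟨necessity K hK, sufficiency K hK⟩
  exact ⟨h1, h1.trans (singleBasin_iff_path K hK)⟩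

end Pool.Agent.Results.MP_2b501e_co.Characterisation
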