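import Pool.Agent.Helper524.Mono.Suff
import Pool.Agent.Helper524.Mono.S_necessity
import Pool.Agent.Helper524.Mono.S_radial_iff

set_option autoImplicit false

open MeasureTheory Set Metric
open scoped InnerProductSpace

namespace Pool.Agent.Results.MP_2b501e_co.DistanceSublevels

open Pool.Agent.Helper524.Mono

/-- **Characterisation of the convex bodies approximable by monostable polyhedra** in terms of
the distance from the centre of mass, restricted to the boundary. -/
theorem result (K : Set E3) (hK : IsBody K) :
    Approximable K ↔ ∀ r : ℝ, IsPreconnected {x : E3 | x ∈ frontier K ∧ ‖x - com K‖ < r} := by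
  have h1 : Approximable K ↔ SingleBasin K := ⟨necessity K hK, sufficiency K hK⟩
  exact h1.trans (radial_iff K hK)

end Pool.Agent.Results.MP_2b501e_co.DistanceSublevels
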